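import Pool.Agent.helper62.RS.SpecT

/-! Row TH3 of project RS: the line `Re ζ = 1/2`. -/

set_option autoImplicit false

open MeasureTheory Filter Set

namespace Pool.Agent.RS

theorem TH3_cs {Y : Type} [MeasurableSpace Y] (ν : Measure Y) [IsFiniteMeasure ν] (f g : Y → ℝ) (C D : ℝ)
    (hf : Measurable f) (hg : Measurable g) (hf0 : ∀ y, 0 ≤ f y) (hg0 : ∀ y, 0 ≤ g y)
    (hfC : ∀ y, f y ≤ C) (hgD : ∀ y, g y ≤ D) :
    ∫ y, f y * g y ∂ν ≤ Real.sqrt (∫ y, f y ^ 2 ∂ν) * Real.sqrt (∫ y, g y ^ 2 ∂ν) := by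
  have h2 : Real.HolderConjugate 2 2 := by
    rw [Real.holderConjugate_iff]
    norm_num
  have m1 : MemLp f (ENNReal.ofReal 2) ν :=
    MemLp.of_bound hf.aestronglyMeasurable C (Eventually.of_forall fun y => by
      rw [Real.norm_eq_abs, abs_of_nonneg (hf0 y)]; exact hfC y)
  have m2 : MemLp g (ENNReal.ofReal 2) ν :=
    MemLp.of_bound hg.aestronglyMeasurable D (Eventually.of_forall fun y => by
      rw [Real.norm_eq_abs, abs_of_nonneg (hg0 y)]; exact hgD y)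
  have h := integral_mul_le_Lp_mul_Lq_of_nonneg h2 (Eventually.of_forall hf0) (Eventually.of_forall hg0) m1 m2
  simp only [Real.rpow_two, ← Real.sqrt_eq_rpow] at h
  exact h

theorem TH3_bdd {Y : Type} [MeasurableSpace Y] (ν : Measure Y) [IsFiniteMeasure ν] {E : Type} [NormedAddCommGroup E]
    [MeasurableSpace E] [BorelSpace E] [SecondCountableTopology E] (f : Y → E) (h : BM f) : Integrable f ν := by
  obtain ⟨h1, m, hm⟩ := h
  exact Integrable.of_bound h1.aestronglyMeasurable m (Eventually.of_forall hm)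

theorem TH3_mul {Y : Type} [MeasurableSpace Y] (f g : Y → ℂ) (hf : BM f) (hg : BM g) : BM (fun y => f y * g y) := by
  obtain ⟨h1, m, hm⟩ := hf
  obtain ⟨h2, n, hn⟩ := hg
  refine ⟨h1.mul h2, m * n, fun y => ?_⟩
  rw [norm_mul]
  exact mul_le_mul (hm y) (hn y) (norm_nonneg _) ((norm_nonneg _).trans (hm y))

theorem TH3_sum {Y : Type} [MeasurableSpace Y] {N : ℕ} (f : Fin N → Y → ℂ) (hf : ∀ j, BM (f j)) :
    BM (fun y => ∑ j, f j y) := by
  refine ⟨Finset.measurable_sum _ fun j _ => (hf j).1, ∑ j, (hf j).2.choose, fun y => ?_⟩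
  exact (norm_sum_le _ _).trans (Finset.sum_le_sum fun j _ => (hf j).2.choose_spec y)

theorem TH3_conj {Y : Type} [MeasurableSpace Y] (f : Y → ℂ) (hf : BM f) : BM (fun y => (starRingEnd ℂ) (f y)) := by
  obtain ⟨h1, m, hm⟩ := hf
  refine ⟨Complex.continuous_conj.measurable.comp h1, m, fun y => ?_⟩
  rw [RCLike.norm_conj]
  exact hm y

theorem TH3_exp {Y : Type} [MeasurableSpace Y] (Φ : Y → ℝ) (ζ : ℂ) (hΦ : BM Φ) :
    BM (fun y => Complex.exp (ζ * Φ y)) := by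
  obtain ⟨h1, m, hm⟩ := hΦ
  refine ⟨Complex.measurable_exp.comp ((Complex.measurable_ofReal.comp h1).const_mul ζ), Real.exp (|ζ.re| * m), fun y => ?_⟩
  rw [Complex.norm_exp]
  apply Real.exp_le_exp.mpr
  have e : (ζ * (Φ y : ℂ)).re = ζ.re * Φ y := by simp
  rw [e]
  have h3 : |Φ y| ≤ m := hm y
  calc ζ.re * Φ y ≤ |ζ.re * Φ y| := le_abs_self _
    _ = |ζ.re| * |Φ y| := abs_mul _ _
    _ ≤ |ζ.re| * m := mul_le_mul_of_nonneg_left h3 (abs_nonneg _)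

theorem TH3_fst {Y : Type} [MeasurableSpace Y] {E : Type} [NormedAddCommGroup E] [MeasurableSpace E] (f : Y → E) (hf : BM f) :
    BM (fun z : Y × Y => f z.1) := by
  obtain ⟨h1, m, hm⟩ := hf
  exact ⟨h1.comp measurable_fst, m, fun z => hm z.1⟩

theorem TH3_snd {Y : Type} [MeasurableSpace Y] {E : Type} [NormedAddCommGroup E] [MeasurableSpace E] (f : Y → E) (hf : BM f) :
    BM (fun z : Y × Y => f z.2) := by
  obtain ⟨h1, m, hm⟩ := hf
  exact ⟨h1.comp measurable_snd, m, fun z => hm z.2⟩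

/-- the square integral of `S` -/
theorem TH3_sq {X : Type} [MeasurableSpace X] (μ : Measure X) [IsFiniteMeasure μ] (N : ℕ)
    (a b : Fin N → X → ℂ) (A : Fin N → ℝ) (κ : ℝ) (hκ : 0 < κ)
    (bma : ∀ j, BM (a j)) (bmb : ∀ j, BM (b j)) (hA0 : ∀ j, 0 ≤ A j) (hA1 : ∀ j, A j ≤ 1)
    (ortha : ∀ i j, ∫ x, a i x * (starRingEnd ℂ) (a j x) ∂μ = if i = j then ((κ * A j : ℝ) : ℂ) else 0)
    (orthb : ∀ i j, ∫ x, b i x * (starRingEnd ℂ) (b j x) ∂μ = if i = j then ((κ * A j : ℝ) : ℂ) else 0) :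
    ∫ z, ‖∑ j, (starRingEnd ℂ) (a j z.1) * b j z.2‖ ^ 2 ∂(μ.prod μ) ≤ N * κ ^ 2 := by
  have e1 : ((∫ z, ‖∑ j, (starRingEnd ℂ) (a j z.1) * b j z.2‖ ^ 2 ∂(μ.prod μ) : ℝ) : ℂ) =
      ((∑ j, (κ * A j) ^ 2 : ℝ) : ℂ) := by
    rw [← integral_complex_ofReal]
    have e2 : ∀ z : X × X, (((‖∑ j, (starRingEnd ℂ) (a j z.1) * b j z.2‖ ^ 2 : ℝ)) : ℂ) =
        ∑ i, ∑ j, (a j z.1 * (starRingEnd ℂ) (a i z.1)) * (b i z.2 * (starRingEnd ℂ) (b j z.2)) := by
      intro z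
      rw [← Complex.normSq_eq_norm_sq, Complex.normSq_eq_conj_mul_self, mul_comm, map_sum, Finset.sum_mul_sum]
      refine Finset.sum_congr rfl fun i _ => Finset.sum_congr rfl fun j _ => ?_
      rw [map_mul, Complex.conj_conj]
      ring
    simp_rw [e2]
    have hint : ∀ i j, Integrable (fun z : X × X =>
        (a j z.1 * (starRingEnd ℂ) (a i z.1)) * (b i z.2 * (starRingEnd ℂ) (b j z.2))) (μ.prod μ) := fun i j =>
      TH3_bdd _ _ (TH3_mul _ _ (TH3_fst _ (TH3_mul _ _ (bma j) (TH3_conj _ (bma i))))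
        (TH3_snd _ (TH3_mul _ _ (bmb i) (TH3_conj _ (bmb j)))))
    rw [integral_finsetSum _ fun i _ => integrable_finsetSum _ fun j _ => hint i j]
    push_cast
    refine Finset.sum_congr rfl fun i _ => ?_
    rw [integral_finsetSum _ fun j _ => hint i j]
    have e3 : ∀ j, ∫ z : X × X, (a j z.1 * (starRingEnd ℂ) (a i z.1)) * (b i z.2 * (starRingEnd ℂ) (b j z.2)) ∂(μ.prod μ) =
        (if j = i then ((κ * A i : ℝ) : ℂ) else 0) * (if i = j then ((κ * A j : ℝ) : ℂ) else 0) := by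
      intro j
      rw [← ortha j i, ← orthb i j]
      exact integral_prod_mul (fun x => a j x * (starRingEnd ℂ) (a i x)) (fun y => b i y * (starRingEnd ℂ) (b j y))
    simp_rw [e3]
    rw [Finset.sum_eq_single i]
    · simp [sq]
    · intro j _ hj
      rw [if_neg hj, zero_mul]
    · intro h
      exact absurd (Finset.mem_univ i) h
  have e4 : ∫ z, ‖∑ j, (starRingEnd ℂ) (a j z.1) * b j z.2‖ ^ 2 ∂(μ.prod μ) = ∑ j, (κ * A j) ^ 2 :=
    Complex.ofReal_injective e1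
  rw [e4]
  calc ∑ j, (κ * A j) ^ 2 ≤ ∑ _j : Fin N, κ ^ 2 := by
        refine Finset.sum_le_sum fun j _ => ?_
        have h1 : κ * A j ≤ κ := by nlinarith [hA1 j]
        have h2 : 0 ≤ κ * A j := mul_nonneg hκ.le (hA0 j)
        exact pow_le_pow_left₀ h2 h1 2
    _ = N * κ ^ 2 := by simp

theorem TH3 : TH3_stmt := by
  intro X _ μ _ N K a b A κ k₀ Φ hT hΦ ζ hζ
  have hκ := hT.posκ
  have hk := hT.posk
  set S : X × X → ℂ := fun z => ∑ j, (starRingEnd ℂ) (a j z.1) * b j z.2 with hS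
  have hSb : BM S := TH3_sum _ fun j => TH3_mul _ _ (TH3_fst _ (TH3_conj _ (hT.bma j))) (TH3_snd _ (hT.bmb j))
  have hEx := TH3_exp Φ ζ hΦ
  have hKb : BM (fun z : X × X => K z.1 z.2) := ⟨hT.measK, k₀, fun z => hT.boundK _ _⟩
  -- the terms as integrals over the product
  have hfb : ∀ j, BM (fun z : X × X => (Complex.exp (ζ * Φ z.1) * (starRingEnd ℂ) (a j z.1)) * K z.1 z.2 *
      (Complex.exp (ζ * Φ z.2) * b j z.2)) := fun j =>
    TH3_mul _ _ (TH3_mul _ _ (TH3_fst _ (TH3_mul _ _ hEx (TH3_conj _ (hT.bma j)))) hKb)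
      (TH3_snd _ (TH3_mul _ _ hEx (hT.bmb j)))
  have e1 : TF μ K a b Φ ζ = ∫ z, ∑ j, (Complex.exp (ζ * Φ z.1) * (starRingEnd ℂ) (a j z.1)) * K z.1 z.2 *
      (Complex.exp (ζ * Φ z.2) * b j z.2) ∂(μ.prod μ) := by
    rw [integral_finsetSum _ fun j _ => TH3_bdd _ _ (hfb j)]
    unfold TF
    refine Finset.sum_congr rfl fun j _ => ?_
    exact integral_integral (f := fun x y => (Complex.exp (ζ * Φ x) * (starRingEnd ℂ) (a j x)) * K x y *
      (Complex.exp (ζ * Φ y) * b j y)) (TH3_bdd _ _ (hfb j))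
  obtain ⟨hΦm, m, hm⟩ := hΦ
  obtain ⟨hSm, s, hs⟩ := hSb
  have hm' : ∀ x, |Φ x| ≤ m := hm
  have hEm : Measurable (fun z : X × X => Real.exp ((Φ z.1 + Φ z.2) / 2)) :=
    Real.measurable_exp.comp (((hΦm.comp measurable_fst).add (hΦm.comp measurable_snd)).div_const 2)
  have hEb : ∀ z : X × X, Real.exp ((Φ z.1 + Φ z.2) / 2) ≤ Real.exp m := by
    intro z
    apply Real.exp_le_exp.mpr
    have h1 := (abs_le.mp (hm' z.1)).2
    have h2 := (abs_le.mp (hm' z.2)).2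
    linarith
  have hbound : ∀ z : X × X, ‖∑ j, (Complex.exp (ζ * Φ z.1) * (starRingEnd ℂ) (a j z.1)) * K z.1 z.2 *
      (Complex.exp (ζ * Φ z.2) * b j z.2)‖ ≤ k₀ * (Real.exp ((Φ z.1 + Φ z.2) / 2) * ‖S z‖) := by
    intro z
    have e2 : ∑ j, (Complex.exp (ζ * Φ z.1) * (starRingEnd ℂ) (a j z.1)) * K z.1 z.2 *
      (Complex.exp (ζ * Φ z.2) * b j z.2) = K z.1 z.2 * (Complex.exp (ζ * Φ z.1) * Complex.exp (ζ * Φ z.2) * S z) := by
      simp only [hS, Finset.mul_sum]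
      exact Finset.sum_congr rfl fun j _ => by ring
    rw [e2, norm_mul, norm_mul, ← Complex.exp_add, Complex.norm_exp]
    have e3 : (ζ * (Φ z.1 : ℂ) + ζ * (Φ z.2 : ℂ)).re = (Φ z.1 + Φ z.2) / 2 := by
      simp [hζ]
      ring
    rw [e3]
    exact mul_le_mul_of_nonneg_right (hT.boundK _ _) (by positivity)
  have hint : Integrable (fun z : X × X => k₀ * (Real.exp ((Φ z.1 + Φ z.2) / 2) * ‖S z‖)) (μ.prod μ) := by
    refine TH3_bdd _ _ ⟨(hEm.mul hSm.norm).const_mul k₀, k₀ * (Real.exp m * s), fun z => ?_⟩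
    rw [Real.norm_eq_abs, abs_of_nonneg (by positivity)]
    exact mul_le_mul_of_nonneg_left (mul_le_mul (hEb z) (hs z) (norm_nonneg _) (Real.exp_pos _).le) hk
  rw [e1]
  refine (norm_integral_le_of_norm_le hint (Eventually.of_forall hbound)).trans ?_
  rw [integral_const_mul]
  have hcs := TH3_cs (μ.prod μ) (fun z : X × X => Real.exp ((Φ z.1 + Φ z.2) / 2)) (fun z => ‖S z‖) (Real.exp m) s hEm
    hSm.norm (fun z => (Real.exp_pos _).le) (fun z => norm_nonneg _) hEb hs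
  have e5 : ∫ z : X × X, Real.exp ((Φ z.1 + Φ z.2) / 2) ^ 2 ∂(μ.prod μ) = (∫ x, Real.exp (Φ x) ∂μ) ^ 2 := by
    have e6 : ∀ z : X × X, Real.exp ((Φ z.1 + Φ z.2) / 2) ^ 2 = Real.exp (Φ z.1) * Real.exp (Φ z.2) := by
      intro z
      rw [← Real.exp_add, ← Real.exp_nat_mul]
      congr 1
      push_cast
      ring
    simp_rw [e6]
    rw [integral_prod_mul (fun x => Real.exp (Φ x)) (fun y => Real.exp (Φ y)), sq]
  have hZ : 0 ≤ ∫ x, Real.exp (Φ x) ∂μ := integral_nonneg fun x => (Real.exp_pos _).le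
  rw [e5, Real.sqrt_sq hZ] at hcs
  have hsq := TH3_sq μ N a b A κ hκ hT.bma hT.bmb hT.nonneg hT.le_one hT.ortha hT.orthb
  have hsq' : Real.sqrt (∫ z, ‖S z‖ ^ 2 ∂(μ.prod μ)) ≤ Real.sqrt N * κ := by
    have h7 : Real.sqrt (∫ z, ‖S z‖ ^ 2 ∂(μ.prod μ)) ≤ Real.sqrt (N * κ ^ 2) := Real.sqrt_le_sqrt hsq
    rwa [Real.sqrt_mul (by positivity), Real.sqrt_sq hκ.le] at h7
  calc k₀ * ∫ z : X × X, Real.exp ((Φ z.1 + Φ z.2) / 2) * ‖S z‖ ∂(μ.prod μ)
      ≤ k₀ * ((∫ x, Real.exp (Φ x) ∂μ) * Real.sqrt (∫ z, ‖S z‖ ^ 2 ∂(μ.prod μ))) := mul_le_mul_of_nonneg_left hcs hk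
    _ ≤ k₀ * ((∫ x, Real.exp (Φ x) ∂μ) * (Real.sqrt N * κ)) :=
        mul_le_mul_of_nonneg_left (mul_le_mul_of_nonneg_left hsq' hZ) hk
    _ = Real.sqrt N * κ * k₀ * ∫ x, Real.exp (Φ x) ∂μ := by ring

end Pool.Agent.RS
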